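import Pool.Agent.H41.OneP.Loc

/-! Module B5: opposite neighbours of an interior vertex of degree 4 have no common face. -/

namespace Pool.Agent.H74.OneP

open Equiv Equiv.Perm Drawing

theorem b5 (ht : TriStmt) : OppStmt := by
  intro M G e he h4 h2 a b ha hb hab hao hbo
  have i1 : inter (M.rot e) := inter_rot he
  have i2 : inter (M.rot (M.rot e)) := inter_rot i1
  have i3 : inter (M.rot (M.rot (M.rot e))) := inter_rot i2
  set e1 := M.rot e with he1
  set e2 := M.rot e1 with he2
  set e3 := M.rot e2 with he3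
  have o1 : M.org e1 = M.org e := org_rot e
  have o2 : M.org e2 = M.org e := (org_rot e1).trans o1
  have o3 : M.org e3 = M.org e := (org_rot e2).trans o2
  have n01 : e ≠ e1 := by
    intro h
    apply h2
    rw [he2, ← h, he1.symm, ← h]
  have n12 : e1 ≠ e2 := fun h => n01 (M.rot.injective h)
  have n23 : e2 ≠ e3 := fun h => n12 (M.rot.injective h)
  have n30 : e3 ≠ e := fun h => n23 (M.rot.injective (by rw [← he3, h4, h]))
  have n02 : e ≠ e2 := fun h => h2 h.symm
  have n13 : e1 ≠ e3 := fun h => n02 (M.rot.injective h)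
  -- adjacency of w1 and w3
  have hk : adj (M := M) (M.org (M.rev e1)) (M.org (M.rev e3)) := by
    have h := G.across (k := e2) (d := M.rev e3) (e := M.nxt e1) (inter_ncr i2) (inter_ncr' i2)
      (inter_ncr' i3) (by rw [cr_congr (org_nxt e1)]; exact inter_ncr' i1)
      (by rw [he3, fac_rev_rot])
      (by rw [fac_nxt, ← fac_nxt (M.rev e2), nxt_rev, he2]; simp)
      (by rw [o2, ← o3]; exact nb_ne G i3)
      (by intro h; exact n23 (nb_inj G i3 (o3.trans o2.symm) h).symm)
      (by rw [org_nxt, o2, ← o1]; exact nb_ne G i1)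
      (by rw [org_nxt]; intro h; exact n12 (nb_inj G i1 (o1.trans o2.symm) h))
      (by rw [org_nxt]; intro h; exact n13 (nb_inj G i3 (o3.trans o1.symm) h).symm)
    rw [org_nxt] at h
    exact adj_symm h
  obtain ⟨k, hk1, hk2, hk3⟩ := hk
  obtain ⟨col, c1, c2, c3, c4, c5, -⟩ := ht M G e1 e3 k i1 (o3.trans o1.symm) n13 hk1 hk2 hk3
  have hc0 : col (M.rev e) = col e := (c2 e o1.symm n01 (fun h => n30 h.symm)).2
  have hc2 : col (M.rev e2) = col e2 := (c2 e2 (o2.trans o1.symm) (fun h => n12 h.symm) n23).2
  have hc12 : col e1 = col e2 := by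
    have := (c2 e2 (o2.trans o1.symm) (fun h => n12 h.symm) n23).1
    rw [he2] at this ⊢
    simpa using this
  have hc01 : col e ≠ col e1 := by
    have := c3
    rw [he1] at this ⊢
    simpa using this
  have hat : ∀ a' e', e' = e ∨ e' = e2 → M.org a' = M.org (M.rev e') → col a' = col (M.rev e') := by
    intro a' e' he' ha'
    have i' : inter e' := by rcases he' with h | h <;> rw [h] <;> assumption
    have o' : M.org e' = M.org e := by
      rcases he' with h | h <;> rw [h]
      exact o2
    have n1' : e' ≠ e1 := by rcases he' with h | h <;> rw [h]; exacts [n01, n12.symm]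
    have n3' : e' ≠ e3 := by rcases he' with h | h <;> rw [h]; exacts [n30.symm, n23]
    refine const_of_rot (p := M.org (M.rev e')) ?_ ha' rfl
    intro d hd
    refine (c5 d ?_ ?_ ?_ ?_).1
    · rw [cr_congr hd]; exact inter_ncr' i'
    · rw [hd, o1, ← o']; exact nb_ne G i'
    · rw [hd]; intro h; exact n1' (nb_inj G i' (o'.trans o1.symm) h)
    · rw [hd]; intro h; exact n3' (nb_inj G i' (o'.trans o3.symm) h)
  have ha1 := hat a e (Or.inl rfl) hao
  have hb1 := hat b e2 (Or.inr rfl) hbo
  have h5 : col a = col b := const_of_nxt (p := M.fac b) (fun d _ => c1 d) hab rfl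
  apply hc01
  rw [hc12, ← hc2, ← hb1, ← h5, ha1, hc0]

theorem b5' (_hv : VisitStmt) (_hc : CornerStmt) (ht : TriStmt) : OppStmt := b5 ht

end Pool.Agent.H74.OneP
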