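import Pool.Agent.H41.OneP.Loc

/-! Module B6: vertices behind the side opposite to an interior vertex. -/

namespace Pool.Agent.H74.OneP

open Equiv Equiv.Perm Drawing

theorem b6 (hv : VisitStmt) (hc : CornerStmt) : AcrossStmt := by
  intro M G hX e he hk' t ht hft
  have i1 : inter (M.rot e) := inter_rot he
  have o1 : M.org (M.rot e) = M.org e := org_rot e
  set k := M.nxt e with hk
  have hkcr : ¬ M.cr k := by rw [hk, cr_congr (org_nxt e)]; exact inter_ncr' he
  have hko : M.org k = M.org (M.rev e) := org_nxt e
  have hkk : M.nxt k = M.rev (M.rot e) := by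
    rcases (hc M G e he).2 with h | h
    · exact h.2
    · exact absurd h.1 hk'
  have hko' : M.org (M.rev k) = M.org (M.rev (M.rot e)) := by
    rw [← hkk, org_nxt]
  by_contra hcon
  push Not at hcon
  obtain ⟨hp, hq, hno⟩ := hcon
  have hne : ∀ d, inter d → M.rot d ≠ d := fun d hd => (hv M G).2 d (inter_ncr hd)
  by_cases hw : M.org t = M.org e
  · have it : inter t := inter_congr hw he
    -- p and q are neighbours of t, rot t
    have hq1 := (hc M G t it).1 (M.rev k) hk' hft.symm
    have hp1 := (hc M G t it).1 (M.nxt (M.rev k))
      (by rw [cr_congr (org_nxt _), rev_rev']; exact hkcr) (by rw [fac_nxt]; exact hft.symm)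
    rw [org_nxt, rev_rev', hko] at hp1
    rw [hko'] at hq1
    have hq2 : t = M.rot e ∨ t = e := by
      rcases hq1 with h | h | h
      · exfalso; rw [hw, ← o1] at h; exact nb_ne G i1 h
      · left; exact (nb_inj G i1 (o1.trans hw.symm) h).symm
      · right
        have := nb_inj G i1 (o1.trans (hw.symm.trans (org_rot t).symm)) h
        exact (M.rot.injective this).symm
    have hp2 : t = e ∨ M.rot t = e := by
      rcases hp1 with h | h | h
      · exfalso; rw [hw] at h; exact nb_ne G he h
      · left; exact (nb_inj G he hw.symm h).symm
      · right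
        exact (nb_inj G he (hw.symm.trans (org_rot t).symm) h).symm
    rcases hp2 with h1 | h1
    · -- t = e
      rw [h1] at hft
      have h2 : k = M.nxt (M.rev k) := by
        refine (hv M G).1 k (M.nxt (M.rev k)) hkcr ?_ ?_ ?_
        · rw [cr_congr (org_nxt _), rev_rev']; exact hkcr
        · rw [hk, fac_nxt, hft, ← hk]; exact (fac_nxt _).symm
        · rw [org_nxt (M.rev k), rev_rev']
      rw [nxt_rev] at h2
      have h3 : M.rot k = k := by
        have := congrArg M.rot h2
        simpa using this
      exact (hv M G).2 k hkcr h3
    · rcases hq2 with h2 | h2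
      · -- degree 2
        rw [h2] at h1 hft ht
        have h3 : M.nxt (M.rot e) = M.rev k := by
          refine (hv M G).1 _ _ ?_ hk' ?_ ?_
          · rw [cr_congr (org_nxt _)]; exact inter_ncr' i1
          · rw [fac_nxt, hft]
          · rw [org_nxt, hko']
        have h4 : M.nxt (M.rev k) = M.rev e := by
          rcases (hc M G (M.rot e) i1).2 with h | h
          · rw [← h3, h.2, h1]
          · exfalso
            have := h.1
            rw [h3, rev_rev'] at this
            exact hkcr this
        -- the closed set
        refine no_closed hX {d | d = e ∨ d = M.rot e ∨ d = k ∨ d = M.rev k ∨ d = M.rev e ∨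
          d = M.rev (M.rot e)} ⟨e, Or.inl rfl⟩ ?_ ?_
        · rintro d (rfl | rfl | rfl | rfl | rfl | rfl)
          · exact ⟨Or.inr (Or.inl rfl), by simp⟩
          · exact ⟨Or.inl h1, by simp⟩
          · refine ⟨?_, by simp⟩
            have : M.rot k = M.rev e := by rw [hk, rot_nxt]
            rw [this]; simp
          · refine ⟨?_, by simp⟩
            have : M.rot (M.rev k) = M.rev (M.rot e) := by rw [← h3, rot_nxt]
            rw [this]; simp
          · refine ⟨?_, by simp⟩
            have : M.rot (M.rev e) = k := by rw [← h4, rot_nxt, rev_rev']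
            rw [this]; simp
          · refine ⟨?_, by simp⟩
            have : M.rot (M.rev (M.rot e)) = M.rev k := by rw [← hkk, rot_nxt]
            rw [this]; simp
        · rintro d (rfl | rfl | rfl | rfl | rfl | rfl)
          · exact inter_ncr he
          · exact inter_ncr i1
          · exact hkcr
          · exact hk'
          · exact inter_ncr' he
          · exact inter_ncr' i1
      · rw [h2] at h1
        exact hne e he h1
  · obtain ⟨e', he'r, he'1, he'2⟩ := G.across (k := k) (d := e) (e := t) hkcr hk' (inter_ncr he) ht
      (by rw [hk, fac_nxt]) hft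
      (by rw [hko]; exact (nb_ne G he).symm)
      (by rw [hko', ← o1]; exact (nb_ne G i1).symm)
      (by rw [hko]; exact hp) (by rw [hko']; exact hq) (fun h => hw h.symm)
    rw [inter_far (inter_congr he'1 he)] at he'2
    refine hno e' he'1 ?_ ?_ he'2.symm
    · rintro rfl; exact hp he'2.symm
    · rintro rfl; exact hq he'2.symm

end Pool.Agent.H74.OneP
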