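import Pool.Agent.H41.OneP.Loc

/-! Module B8: at interior vertices of degree 2 and 4 all sides are good. -/

namespace Pool.Agent.H74.OneP

open Equiv Equiv.Perm Drawing

theorem b8 (ha : AcrossStmt) (h2 : TwoStmt) (ho : OppStmt) (hc : CornerStmt) : EvenStmt := by
  intro M G hX e he hdeg
  by_cases hk' : M.cr (M.rev (M.nxt e))
  · exact Or.inl hk'
  set k := M.nxt e with hk
  have hkcr : ¬ M.cr k := by rw [hk, cr_congr (org_nxt e)]; exact inter_ncr' he
  have hko : M.org k = M.org (M.rev e) := org_nxt e
  have hkk : M.nxt k = M.rev (M.rot e) := by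
    rcases (hc M G e he).2 with h | h
    · exact h.2
    · exact absurd h.1 hk'
  have hko' : M.org (M.rev k) = M.org (M.rev (M.rot e)) := by
    rw [← hkk, org_nxt]
  refine h2 M G k hkcr hk' ?_
  intro t ht hft
  rcases ha M G hX e he hk' t ht hft with h | h | ⟨e', h1, h3, h4, h5⟩
  · left; rw [h, hko]
  · right; rw [h, hko']
  · exfalso
    rcases hdeg with hd | ⟨hd, hd'⟩
    · rcases at_two hd h1 with h | h
      · exact h3 h
      · exact h4 h
    · rcases at_four hd h1 with h | h | h | h
      · exact h3 h
      · exact h4 h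
      · refine ho M G e he hd hd' (M.nxt (M.rev k)) t ?_ ht ?_ ?_ ?_
        · rw [cr_congr (org_nxt _), rev_rev']; exact hkcr
        · rw [fac_nxt, hft]
        · rw [org_nxt, rev_rev', hko]
        · rw [h5, h]
      · refine ho M G (M.rot e) (inter_rot he) (by rw [hd])
          (fun h' => hd' (M.rot.injective h')) (M.rev k) t hk' ht hft.symm hko' ?_
        rw [h5, h]

end Pool.Agent.H74.OneP
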