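import Pool.Agent.H41.OneP.Loc

/-! Module C7: the `ψ`-cycle of a pair of adjacent interior vertices. -/

namespace Pool.Agent.H74.OneP

open Equiv Equiv.Perm Drawing

namespace Drawing

variable {M : Drawing}

theorem target_kp {k : M.D} (h : gs k) : M.org (M.rev (kp k)) = M.org (nx k) := by
  by_cases hk : M.cr (M.rev k)
  · unfold kp nx
    rw [if_pos hk, if_pos hk, org_nxt (M.nxt k)]
  · rcases h with h | ⟨-, h1, h2⟩
    · exact absurd h hk
    · unfold kp nx
      rw [if_neg hk, if_neg hk, ← org_nxt (M.nxt (M.nxt (M.rev k))), h2, org_nxt]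

theorem corner_nx (hc : CornerStmt) (G : M.Good) {e : M.D} (he : inter e) :
    nx (M.nxt e) = M.rev (M.rot e) := by
  unfold nx
  rcases (hc M G e he).2 with h | h
  · rw [if_neg h.1, h.2]
  · rw [if_pos h.1, h.2]

/-- the crossing dart determines the interior dart -/
theorem own {a b : M.D} (ha : inter a) (hb : inter b) (ga : gs (M.nxt a)) (gb : gs (M.nxt b))
    (h : kp (M.nxt a) = kp (M.nxt b)) : a = b := by
  -- mixed case
  have mix : ∀ a b : M.D, inter a → M.cr (M.rev (M.nxt a)) → ¬ M.cr (M.rev (M.nxt b)) →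
      M.cr (M.rev (M.nxt (M.rev (M.nxt b)))) →
      M.nxt (M.nxt (M.nxt (M.rev (M.nxt b)))) = M.rev (M.nxt b) →
      kp (M.nxt a) = kp (M.nxt b) → False := by
    intro a b ha h1 h2 h3 h4 h
    unfold kp at h
    rw [if_pos h1, if_neg h2] at h
    have h5 : a = M.rev (M.nxt b) := M.nxt.injective (M.nxt.injective h)
    have h6 : M.nxt (M.nxt (M.nxt a)) = a := by rw [h5]; exact h4
    have h7 : M.org (M.rev (M.nxt (M.nxt a))) = M.org a := by rw [← org_nxt, h6]
    have h8 := (ha _ h7).2
    rw [rev_rev'] at h8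
    apply h8
    rw [cr_congr (org_nxt _)]; exact h1
  rcases ga with g1 | ⟨g1, g2, g3⟩ <;> rcases gb with g4 | ⟨g4, g5, g6⟩
  · unfold kp at h
    rw [if_pos g1, if_pos g4] at h
    exact M.nxt.injective (M.nxt.injective h)
  · exact (mix a b ha g1 g4 g5 g6 h).elim
  · exact (mix b a hb g4 g1 g2 g3 h.symm).elim
  · unfold kp at h
    rw [if_neg g1, if_neg g4] at h
    have h5 := congrArg M.nxt h
    rw [g3, g6] at h5
    exact M.nxt.injective (M.rev.injective h5)

end Drawing

theorem c7 (hs : StepStmt) (hc : CornerStmt) (hp : PairStmt) : PairOrbStmt := by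
  intro M G hX τ hτ
  -- relations
  have rel : ∀ e : M.D, inter e → inter (M.rev e) →
      M.org (M.rev (M.rot (M.rot (M.rev e)))) = M.org (M.rev (M.rot e)) := by
    intro e he he'
    have h1 := (hp M G hX e he he').2.1
    have h2 := (hp M G hX (M.rev e) he' (by rw [rev_rev']; exact he)).1
    have h3 : M.nxt e = M.rot (M.rot (M.rev e)) := by
      rw [nxt_apply]
      rw [Perm.inv_eq_iff_eq]; exact h2.symm
    rw [h3] at h1
    rw [← h1, org_nxt]
  have lk : ∀ e : M.D, inter e → inter (M.rev e) →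
      M.rot⁻¹ (M.rev (M.rot (M.rot e))) = M.rev (M.rot (M.rev e)) := by
    intro e he he'
    have h1 := (hp M G hX (M.rev e) he' (by rw [rev_rev']; exact he)).2.1
    have h2 := (hp M G hX e he he').1
    have h3 : M.nxt (M.rev e) = M.rot (M.rot e) := by
      rw [nxt_rev]
      rw [Perm.inv_eq_iff_eq]; exact h2.symm
    rw [h3] at h1
    exact h1
  have step : ∀ e : M.D, inter e → inter (M.rev e) → ∀ x y : M.XD,
      x.1 = kp (M.nxt (M.rot e)) → y.1 = kp (M.nxt (M.rot (M.rev e))) →
      M.rho⁻¹ (τ x) = y ∧ ∀ u, Trav x u → (inter (M.rev u) ∨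
        M.org (M.rev u) = M.org (M.rev (M.rot e))) := by
    intro e he he' x y hx hy
    have i1 : inter (M.rot e) := inter_rot he
    have i2 : inter (M.rot (M.rot e)) := inter_rot i1
    have j1 : inter (M.rot (M.rev e)) := inter_rot he'
    have j2 : inter (M.rot (M.rot (M.rev e))) := inter_rot j1
    have g1 := (hp M G hX e he he').2.2.1
    have g2 := (hp M G hX (M.rev e) he' (by rw [rev_rev']; exact he)).2.2.1
    refine hs M τ hτ (fun u => inter (M.rev u) ∨ M.org (M.rev u) = M.org (M.rev (M.rot e)))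
      (M.nxt (M.rot e)) (M.nxt (M.rot (M.rev e))) ?_ g1 g2 ?_ ?_ ?_ x y hx hy
    · rw [cr_congr (org_nxt _)]; exact inter_ncr' i1
    · intro _
      right
      rw [rev_rev', org_nxt]
    · rw [corner_nx hc G i1]
      refine LkP.step _ _ (inter_ncr' i2) (by rw [rev_rev']; exact inter_ncr i2)
        (Or.inl (by rw [rev_rev']; exact i2)) ?_
      rw [lk e he he']
      refine LkP.step _ _ (inter_ncr' j1) (by rw [rev_rev']; exact inter_ncr j1)
        (Or.inl (by rw [rev_rev']; exact j1)) ?_
      exact LkP.refl _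
    · intro hcr
      right
      have h1 := corner_nx hc G j1
      unfold nx at h1
      rw [if_neg hcr] at h1
      rw [← org_nxt, h1]
      exact rel e he he'
  intro e he he' x hx
  have her : inter (M.rev (M.rev e)) := by rw [rev_rev']; exact he
  obtain ⟨P1, P2, P3, P4, P5, P6, P7⟩ := hp M G hX e he he'
  obtain ⟨Q1, Q2, Q3, Q4, Q5, Q6, Q7⟩ := hp M G hX (M.rev e) he' her
  set K' : M.XD := ⟨kp (M.nxt (M.rot (M.rev e))), cr_kp Q3⟩ with hK'
  obtain ⟨s1, s2⟩ := step e he he' x K' hx rfl
  obtain ⟨s3, s4⟩ := step (M.rev e) he' her K' x rfl (by rw [rev_rev']; exact hx)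
  have hcyc : ∀ z, (M.rho⁻¹ * τ).SameCycle x z → z = x ∨ z = K' := by
    intro z hz
    obtain ⟨n, hn⟩ := hz.exists_nat_pow_eq
    rw [← hn]
    clear hn
    induction n with
    | zero => exact Or.inl rfl
    | succ n ih =>
      rw [pow_succ', Perm.mul_apply]
      rcases ih with ih | ih <;> rw [ih]
      · exact Or.inr s1
      · exact Or.inl s3
  have hxx : (M.rho⁻¹ * τ).SameCycle x x := SameCycle.refl _ _
  have hxK : (M.rho⁻¹ * τ).SameCycle x K' := ⟨1, by simpa using s1⟩
  have hψψ : M.rho⁻¹ (τ (M.rho⁻¹ (τ x))) = x := by rw [s1, s3]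
  -- targets
  have i1 : inter (M.rot e) := inter_rot he
  have j1 : inter (M.rot (M.rev e)) := inter_rot he'
  have tx : M.org (M.rev x.1) = M.org (M.rev (M.rot (M.rot e))) := by
    rw [hx, target_kp P3, corner_nx hc G i1]
  have tK : M.org (M.rev K'.1) = M.org (M.rev (M.rot e)) := by
    rw [show K'.1 = kp (M.nxt (M.rot (M.rev e))) from rfl, target_kp Q3, corner_nx hc G j1]
    exact rel e he he'
  have tx' : M.org (M.rev x.1) = M.org (M.rev (M.rot (M.rev e))) := by
    rw [tx]
    have := rel (M.rev e) he' her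
    rw [rev_rev'] at this
    exact this
  constructor
  · refine ⟨M.org (M.rev e), Or.inr hψψ, ?_⟩
    intro x' e' hx' ie' ge' hx'e'
    rcases hcyc x' hx' with h | h
    · left
      rw [h, hx] at hx'e'
      rw [own i1 ie' P3 ge' hx'e']
    · right
      rw [h] at hx'e'
      rw [← own j1 ie' Q3 ge' hx'e', org_rot]
  · intro e₂ x₂ i₂ g₂ hx₂ hor
    rcases hor with h | ⟨e', h1, h2⟩
    · rw [org_rot] at h
      rcases at_three P1 h with h | h | h
      · rw [h] at g₂; exact absurd g₂ P6
      · have : x₂ = x := Subtype.ext (by rw [hx₂, h, hx])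
        rw [this]
      · rw [h] at g₂; exact absurd g₂ P7
    · rw [org_rot] at h1
      rcases at_three P1 h1 with h | h | h
      · rw [h] at h2
        rcases at_three Q1 h2.symm with h | h | h
        · rw [h] at g₂; exact absurd g₂ Q6
        · have : x₂ = K' := Subtype.ext (by rw [hx₂, h])
          rw [this]; exact hxK
        · rw [h] at g₂; exact absurd g₂ Q7
      · rw [h] at h2
        exact absurd (inter_congr h2 i₂) P4
      · rw [h] at h2
        exact absurd (inter_congr h2 i₂) P5
  · intro e' h1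
    rw [org_rot] at h1
    rcases at_three P1 h1 with h | h | h
    · left; rw [h]; exact he'
    · right; exact ⟨K', hxK, by rw [h]; exact tK⟩
    · right; exact ⟨x, hxx, by rw [h]; exact tx⟩
  · intro x' u hx' hu
    rcases hcyc x' hx' with h | h
    · rw [h] at hu
      rcases s2 u hu with h1 | h1
      · exact Or.inl h1
      · right; exact ⟨K', hxK, by rw [h1]; exact tK⟩
    · rw [h] at hu
      rcases s4 u hu with h1 | h1
      · exact Or.inl h1
      · right; exact ⟨x, hxx, by rw [h1]; exact tx'⟩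
  · intro _; exact hψψ
  · intro _ h; exact absurd hψψ h

end Pool.Agent.H74.OneP
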