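import Pool.Agent.H41.OneP.U7

/-! Facts on the drawing obtained by inserting vertices into faces (modules U6, U8). -/

namespace Pool.Agent.H74.OneP

open Equiv Equiv.Perm Drawing

namespace ConeF

variable {M : Drawing} {S : Set M.F} (h : (M.cone S).Exact)

/-- the drawing after insertion -/
noncomputable abbrev N : Drawing := (M.cone S).toDrawing h

/-- old dart -/
def dl (d : M.D) : (N h).D := (Sum.inl d : M.D ⊕ (M.TS S ⊕ M.TS S))

/-- dart from a corner to the new vertex -/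
def du (t : M.TS S) : (N h).D := (Sum.inr (Sum.inl t) : M.D ⊕ (M.TS S ⊕ M.TS S))

/-- dart from the new vertex to a corner -/
def dh (t : M.TS S) : (N h).D := (Sum.inr (Sum.inr t) : M.D ⊕ (M.TS S ⊕ M.TS S))

theorem dcases (d : (N h).D) : (∃ a, d = dl h a) ∨ (∃ t, d = du h t) ∨ (∃ t, d = dh h t) := by
  rcases d with a | t | t
  · exact Or.inl ⟨a, rfl⟩
  · exact Or.inr (Or.inl ⟨t, rfl⟩)
  · exact Or.inr (Or.inr ⟨t, rfl⟩)

/-- old point -/
def pt (p : M.V ⊕ M.X) : (N h).V ⊕ (N h).X := (Sum.map Sum.inl id p : (M.V ⊕ S) ⊕ M.X)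

/-- new vertex -/
def nv (f : S) : (N h).V ⊕ (N h).X := (Sum.inl (Sum.inr f) : (M.V ⊕ S) ⊕ M.X)

theorem pt_inj {p q : M.V ⊕ M.X} : pt h p = pt h q ↔ p = q := by
  constructor
  · intro hh
    rcases p with p | p <;> rcases q with q | q
    · have := Sum.inl.inj (show (Sum.inl (Sum.inl p) : (M.V ⊕ S) ⊕ M.X) = Sum.inl (Sum.inl q) from hh)
      rw [Sum.inl.inj this]
    · exact absurd (show (Sum.inl (Sum.inl p) : (M.V ⊕ S) ⊕ M.X) = Sum.inr q from hh) (by simp)
    · exact absurd (show (Sum.inr p : (M.V ⊕ S) ⊕ M.X) = Sum.inl (Sum.inl q) from hh) (by simp)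
    · rw [Sum.inr.inj (show (Sum.inr p : (M.V ⊕ S) ⊕ M.X) = Sum.inr q from hh)]
  · rintro rfl; rfl

theorem pt_ne_nv {p : M.V ⊕ M.X} {f : S} : pt h p ≠ nv h f := by
  intro hh
  rcases p with p | p
  · exact absurd (show (Sum.inl (Sum.inl p) : (M.V ⊕ S) ⊕ M.X) = Sum.inl (Sum.inr f) from hh)
      (by simp)
  · exact absurd (show (Sum.inr p : (M.V ⊕ S) ⊕ M.X) = Sum.inl (Sum.inr f) from hh) (by simp)

theorem org_dl (d : M.D) : (N h).org (dl h d) = pt h (M.org d) := rfl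
theorem org_du (t : M.TS S) : (N h).org (du h t) = pt h (M.org t.1) := rfl
theorem org_dh (t : M.TS S) : (N h).org (dh h t) = nv h ⟨M.fac t.1, t.2.1⟩ := rfl
theorem rev_dl (d : M.D) : (N h).rev (dl h d) = dl h (M.rev d) := rfl
theorem rev_du (t : M.TS S) : (N h).rev (du h t) = dh h t := rfl
theorem rev_dh (t : M.TS S) : (N h).rev (dh h t) = du h t := rfl

theorem rot_dl {d : M.D} (hd : M.cr d) : (N h).rot (dl h d) = dl h (M.rot d) := by
  have : ¬ (M.fac d ∈ S ∧ ¬ M.cr d) := fun hh => hh.2 hd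
  exact dif_neg this

theorem cr_dl {d : M.D} : (N h).cr (dl h d) ↔ M.cr d := by
  constructor
  · rintro ⟨x, hx⟩
    refine ⟨x, ?_⟩
    rw [org_dl] at hx
    exact (pt_inj h).1 (hx.trans (show _ = pt h (Sum.inr x) from rfl))
  · rintro ⟨x, hx⟩
    exact ⟨x, by rw [org_dl, hx]; rfl⟩

theorem ncr_dh (t : M.TS S) : ¬ (N h).cr (dh h t) := by
  rintro ⟨x, hx⟩
  exact absurd hx (by rw [org_dh]; simp [nv])

theorem ncr_du (t : M.TS S) : ¬ (N h).cr (du h t) := by
  intro hh
  exact t.2.2 ((cr_dl h).1 ((cr_congr (show (N h).org (du h t) = (N h).org (dl h t.1) from rfl)).1 hh))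

theorem far_dl (d : M.D) : (N h).far (dl h d) = dl h (M.far d) := by
  by_cases hd : M.cr (M.rev d)
  · rw [far_of_cr hd, far_of_cr (by rw [rev_dl, cr_dl]; exact hd), rev_dl, rot_dl h hd,
      rot_dl h ((cr_rot _).2 hd), rev_dl]
  · rw [far_of_not hd, far_of_not (by rw [rev_dl, cr_dl]; exact hd), rev_dl]

theorem far_du (t : M.TS S) : (N h).far (du h t) = dh h t := by
  rw [far_of_not (by rw [rev_du]; exact ncr_dh h t), rev_du]

theorem far_dh (t : M.TS S) : (N h).far (dh h t) = du h t := by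
  rw [far_of_not (by rw [rev_dh]; exact ncr_du h t), rev_dh]

/-- old face -/
def fo (f : {f : M.F // f ∉ S}) : (N h).F := (Sum.inl f : {f : M.F // f ∉ S} ⊕ M.TS S)

/-- new face -/
def fn (t : M.TS S) : (N h).F := (Sum.inr t : {f : M.F // f ∉ S} ⊕ M.TS S)

theorem fn_inj {t t' : M.TS S} (hh : fn h t = fn h t') : t = t' := Sum.inr.inj hh

theorem fo_inj {t t' : {f : M.F // f ∉ S}} (hh : fo h t = fo h t') : t = t' := Sum.inl.inj hh

theorem fo_ne_fn {t : {f : M.F // f ∉ S}} {t' : M.TS S} : fo h t ≠ fn h t' := by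
  intro hh; exact absurd hh (by simp [fo, fn])

theorem fac_dl_out {d : M.D} (hd : M.fac d ∉ S) : (N h).fac (dl h d) = fo h ⟨M.fac d, hd⟩ := by
  exact dif_neg hd

theorem fac_dl_in {d : M.D} (hd : M.fac d ∈ S) (hc : ¬ M.cr d) :
    (N h).fac (dl h d) = fn h ⟨d, hd, hc⟩ := by
  exact (dif_pos hd).trans (dif_neg hc)

theorem fac_dl_cr {d : M.D} (hd : M.fac d ∈ S) (hc : M.cr d) :
    (N h).fac (dl h d) = fn h ⟨preal d, by rw [fac_preal]; exact hd, not_cr_preal _⟩ := by
  exact (dif_pos hd).trans (dif_pos hc)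

theorem fac_du (t : M.TS S) : (N h).fac (du h t) = fn h ((nextT S).symm t) := rfl
theorem fac_dh (t : M.TS S) : (N h).fac (dh h t) = fn h t := rfl

/-- the real darts on a new face -/
theorem real_fn {t : M.TS S} {d : (N h).D} (hd : ¬ (N h).cr d) (hf : (N h).fac d = fn h t) :
    d = dl h t.1 ∨ d = du h (nextT S t) ∨ d = dh h t := by
  rcases dcases h d with ⟨a, rfl⟩ | ⟨s, rfl⟩ | ⟨s, rfl⟩
  · left
    rw [cr_dl] at hd
    by_cases ha : M.fac a ∈ S
    · rw [fac_dl_in h ha hd] at hf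
      have := fn_inj h hf
      rw [← this]
    · rw [fac_dl_out h ha] at hf
      exact absurd hf (fo_ne_fn h)
  · right; left
    rw [fac_du] at hf
    have := fn_inj h hf
    rw [← this]; simp
  · right; right
    rw [fac_dh] at hf
    rw [fn_inj h hf]

/-- the real darts on an old face -/
theorem real_fo {f : {f : M.F // f ∉ S}} {d : (N h).D} (hf : (N h).fac d = fo h f) :
    ∃ a, d = dl h a ∧ M.fac a = f.1 := by
  rcases dcases h d with ⟨a, rfl⟩ | ⟨s, rfl⟩ | ⟨s, rfl⟩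
  · refine ⟨a, rfl, ?_⟩
    by_cases ha : M.fac a ∈ S
    · exfalso
      by_cases hc : M.cr a
      · rw [fac_dl_cr h ha hc] at hf
        exact absurd hf.symm (fo_ne_fn h)
      · rw [fac_dl_in h ha hc] at hf
        exact absurd hf.symm (fo_ne_fn h)
    · rw [fac_dl_out h ha] at hf
      rw [← fo_inj h hf]
  · rw [fac_du] at hf; exact absurd hf.symm (fo_ne_fn h)
  · rw [fac_dh] at hf; exact absurd hf.symm (fo_ne_fn h)

end ConeF

end Pool.Agent.H74.OneP
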