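import Pool.Agent.H74.OneP.Stmts

/-! Small lemmas on interior vertices used in modules B5, B6, B8, ... -/

namespace Pool.Agent.H74.OneP

open Equiv Equiv.Perm

namespace Drawing

variable {M : Drawing}

theorem nxt_rev (k : M.D) : M.nxt (M.rev k) = M.rot⁻¹ k := by
  simp [nxt_apply]

theorem inter_congr {a e : M.D} (h : M.org a = M.org e) (he : inter e) : inter a :=
  fun e' he' => he e' (he'.trans h)

theorem inter_rot {e : M.D} (he : inter e) : inter (M.rot e) := inter_congr (org_rot e) he

theorem inter_ncr {e : M.D} (he : inter e) : ¬ M.cr e := (he e rfl).1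

theorem inter_ncr' {e : M.D} (he : inter e) : ¬ M.cr (M.rev e) := (he e rfl).2

theorem inter_far {e : M.D} (he : inter e) : M.far e = M.rev e := far_of_not (inter_ncr' he)

theorem nb_ne (G : M.Good) {e : M.D} (he : inter e) : M.org (M.rev e) ≠ M.org e := by
  rw [← inter_far he]; exact G.no_loop (inter_ncr he)

theorem nb_inj (G : M.Good) {a b : M.D} (ha : inter a) (h : M.org a = M.org b)
    (h2 : M.org (M.rev a) = M.org (M.rev b)) : a = b := by
  have hb : inter b := inter_congr h.symm ha
  refine G.no_multi (inter_ncr ha) h ?_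
  rw [inter_far ha, inter_far hb]; exact h2

/-- the darts at a point with `rot⁴ e = e` -/
theorem at_four {e e' : M.D} (h : M.rot (M.rot (M.rot (M.rot e))) = e) (h' : M.org e' = M.org e) :
    e' = e ∨ e' = M.rot e ∨ e' = M.rot (M.rot e) ∨ e' = M.rot (M.rot (M.rot e)) := by
  obtain ⟨n, hn⟩ := ((M.org_iff e e').1 h'.symm).exists_nat_pow_eq
  rw [← hn]
  clear hn
  induction n with
  | zero => exact Or.inl rfl
  | succ n ih =>
    rw [pow_succ', Perm.mul_apply]
    rcases ih with ih | ih | ih | ih <;> rw [ih]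
    · exact Or.inr (Or.inl rfl)
    · exact Or.inr (Or.inr (Or.inl rfl))
    · exact Or.inr (Or.inr (Or.inr rfl))
    · exact Or.inl h

/-- the darts at a point with `rot² e = e` -/
theorem at_two {e e' : M.D} (h : M.rot (M.rot e) = e) (h' : M.org e' = M.org e) :
    e' = e ∨ e' = M.rot e := by
  obtain ⟨n, hn⟩ := ((M.org_iff e e').1 h'.symm).exists_nat_pow_eq
  rw [← hn]
  clear hn
  induction n with
  | zero => exact Or.inl rfl
  | succ n ih =>
    rw [pow_succ', Perm.mul_apply]
    rcases ih with ih | ih <;> rw [ih]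
    · exact Or.inr rfl
    · exact Or.inl h

/-- the darts at a point with `rot³ e = e` -/
theorem at_three {e e' : M.D} (h : M.rot (M.rot (M.rot e)) = e) (h' : M.org e' = M.org e) :
    e' = e ∨ e' = M.rot e ∨ e' = M.rot (M.rot e) := by
  obtain ⟨n, hn⟩ := ((M.org_iff e e').1 h'.symm).exists_nat_pow_eq
  rw [← hn]
  clear hn
  induction n with
  | zero => exact Or.inl rfl
  | succ n ih =>
    rw [pow_succ', Perm.mul_apply]
    rcases ih with ih | ih | ih <;> rw [ih]
    · exact Or.inr (Or.inl rfl)
    · exact Or.inr (Or.inr rfl)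
    · exact Or.inl h

/-- a set of uncrossed darts closed under `rot` and `rev` excludes crossings -/
theorem no_closed (hX : M.HasX) (s : Set M.D) (hs : s.Nonempty)
    (h1 : ∀ d ∈ s, M.rot d ∈ s ∧ M.rev d ∈ s) (h2 : ∀ d ∈ s, ¬ M.cr d) : False := by
  obtain ⟨d, hd⟩ := hX
  have := M.conn s hs h1
  exact h2 d (this ▸ Set.mem_univ d) hd

end Drawing

end Pool.Agent.H74.OneP
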