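import Pool.Agent.H41.OneP.Cone

/-! Module U6: separating pairs. -/

namespace Pool.Agent.H74.OneP

open Equiv Equiv.Perm Drawing ConeF

theorem u6a (V : Type) (G : SimpleGraph V) (hc : Cut2 G) : ¬ KConnected 3 G := by
  classical
  rintro ⟨-, hK⟩
  obtain ⟨a, b, A, ha, hb, ⟨x, hx⟩, ⟨z, hz, hza, hzb⟩, hA⟩ := hc
  have hxa : x ≠ a := by rintro rfl; exact ha hx
  have hxb : x ≠ b := by rintro rfl; exact hb hx
  have hcard : ({a, b} : Finset V).card < 3 := lt_of_le_of_lt Finset.card_le_two (by norm_num)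
  obtain ⟨w⟩ := (hK {a, b} hcard).preconnected ⟨x, by simp [hxa, hxb]⟩ ⟨z, by simp [hza, hzb]⟩
  have key : ∀ (p q : {v | v ∉ ({a, b} : Finset V)})
      (_ : (G.induce {v | v ∉ ({a, b} : Finset V)}).Walk p q), p.1 ∈ A → q.1 ∈ A := by
    intro p q w
    induction w with
    | nil => exact id
    | @cons p c q hpc _ ih =>
      intro hp
      apply ih
      have hpc' : G.Adj p.1 c.1 := by simpa using hpc
      rcases hA p.1 hp c.1 hpc' with h | h | h
      · exact h
      · have := c.2; simp [h] at this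
      · have := c.2; simp [h] at this
  exact hz (key _ _ w hx)

variable {M : Drawing} {S : Set M.F} (h : (M.cone S).Exact)

/-- old vertex -/
def vo (v : M.V) : (N h).V := (Sum.inl v : M.V ⊕ S)

/-- new vertex -/
def vn (f : S) : (N h).V := (Sum.inr f : M.V ⊕ S)

theorem vcases (x : (N h).V) : (∃ v, x = vo h v) ∨ (∃ f, x = vn h f) := by
  rcases x with v | f
  · exact Or.inl ⟨v, rfl⟩
  · exact Or.inr ⟨f, rfl⟩

theorem vo_inj {v w : M.V} (hh : vo h v = vo h w) : v = w := Sum.inl.inj hh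
theorem vn_inj {v w : S} (hh : vn h v = vn h w) : v = w := Sum.inr.inj hh
theorem vo_ne_vn {v : M.V} {f : S} : vo h v ≠ vn h f := by
  intro hh; exact absurd hh (by simp [vo, vn])

theorem inl_vo (v : M.V) : (Sum.inl (vo h v) : (N h).V ⊕ (N h).X) = pt h (Sum.inl v) := rfl
theorem inl_vn (f : S) : (Sum.inl (vn h f) : (N h).V ⊕ (N h).X) = nv h f := rfl

theorem nv_inj {f g : S} (hh : nv h f = nv h g) : f = g := vn_inj h (Sum.inl.inj hh)

theorem adj_oo {v w : M.V} (hh : (N h).graph.Adj (vo h v) (vo h w)) : M.graph.Adj v w := by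
  have aux : ∀ v w : M.V, (∃ d, (N h).org d = Sum.inl (vo h v) ∧
      (N h).org ((N h).far d) = Sum.inl (vo h w)) →
      ∃ d, M.org d = Sum.inl v ∧ M.org (M.far d) = Sum.inl w := by
    rintro v w ⟨d, h1, h2⟩
    rw [inl_vo] at h1 h2
    rcases dcases h d with ⟨a, rfl⟩ | ⟨t, rfl⟩ | ⟨t, rfl⟩
    · rw [far_dl, org_dl] at h2
      rw [org_dl] at h1
      exact ⟨a, (pt_inj h).1 h1, (pt_inj h).1 h2⟩
    · rw [far_du, org_dh] at h2
      exact absurd h2.symm (pt_ne_nv h)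
    · rw [org_dh] at h1
      exact absurd h1.symm (pt_ne_nv h)
  unfold Drawing.graph at hh ⊢
  rw [SimpleGraph.fromRel_adj] at hh ⊢
  obtain ⟨h0, hh⟩ := hh
  refine ⟨fun e => h0 (by rw [e]), ?_⟩
  rcases hh with hh | hh
  · exact Or.inl (aux v w hh)
  · exact Or.inr (aux w v hh)

theorem adj_on {v : M.V} {f : S} (hh : (N h).graph.Adj (vo h v) (vn h f)) :
    ∃ t, ¬ M.cr t ∧ M.fac t = f.1 ∧ M.org t = Sum.inl v := by
  unfold Drawing.graph at hh
  rw [SimpleGraph.fromRel_adj] at hh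
  obtain ⟨-, ⟨d, h1, h2⟩ | ⟨d, h1, h2⟩⟩ := hh
  · rw [inl_vo] at h1
    rw [inl_vn] at h2
    rcases dcases h d with ⟨a, rfl⟩ | ⟨t, rfl⟩ | ⟨t, rfl⟩
    · rw [far_dl, org_dl] at h2
      exact absurd h2 (pt_ne_nv h)
    · rw [far_du, org_dh] at h2
      rw [org_du] at h1
      refine ⟨t.1, t.2.2, ?_, (pt_inj h).1 h1⟩
      rw [← nv_inj h h2]
    · rw [org_dh] at h1
      exact absurd h1.symm (pt_ne_nv h)
  · rw [inl_vo] at h2
    rw [inl_vn] at h1
    rcases dcases h d with ⟨a, rfl⟩ | ⟨t, rfl⟩ | ⟨t, rfl⟩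
    · rw [org_dl] at h1
      exact absurd h1 (pt_ne_nv h)
    · rw [org_du] at h1
      exact absurd h1 (pt_ne_nv h)
    · rw [far_dh, org_du] at h2
      rw [org_dh] at h1
      refine ⟨t.1, t.2.2, ?_, (pt_inj h).1 h2⟩
      rw [← nv_inj h h1]

theorem adj_nn {f g : S} (hh : (N h).graph.Adj (vn h f) (vn h g)) : False := by
  have aux : ∀ f g : S, (∃ d, (N h).org d = Sum.inl (vn h f) ∧
      (N h).org ((N h).far d) = Sum.inl (vn h g)) → False := by
    rintro f g ⟨d, h1, h2⟩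
    rw [inl_vn] at h1 h2
    rcases dcases h d with ⟨a, rfl⟩ | ⟨t, rfl⟩ | ⟨t, rfl⟩
    · rw [org_dl] at h1
      exact absurd h1 (pt_ne_nv h)
    · rw [org_du] at h1
      exact absurd h1 (pt_ne_nv h)
    · rw [far_dh, org_du] at h2
      exact absurd h2 (pt_ne_nv h)
  unfold Drawing.graph at hh
  rw [SimpleGraph.fromRel_adj] at hh
  rcases hh.2 with hh | hh
  · exact aux f g hh
  · exact aux g f hh

theorem u6 : CutStmt := by
  classical
  refine ⟨u6a, ?_, ?_⟩
  · intro M G S _ h ⟨a, b, A, ha, hb, ⟨x, hx⟩, ⟨z, hz, hza, hzb⟩, hA⟩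
    refine ⟨vo h a, vo h b, {y | (∃ v ∈ A, y = vo h v) ∨
      (∃ f : S, ∃ v ∈ A, ∃ t, ¬ M.cr t ∧ M.fac t = f.1 ∧ M.org t = Sum.inl v ∧ y = vn h f)},
      ?_, ?_, ⟨vo h x, Or.inl ⟨x, hx, rfl⟩⟩, ⟨vo h z, ?_, ?_, ?_⟩, ?_⟩
    · rintro (⟨v, hv, e⟩ | ⟨f, v, hv, t, -, -, -, e⟩)
      · exact ha (vo_inj h e ▸ hv)
      · exact vo_ne_vn h e
    · rintro (⟨v, hv, e⟩ | ⟨f, v, hv, t, -, -, -, e⟩)
      · exact hb (vo_inj h e ▸ hv)
      · exact vo_ne_vn h e
    · rintro (⟨v, hv, e⟩ | ⟨f, v, hv, t, -, -, -, e⟩)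
      · exact hz (vo_inj h e ▸ hv)
      · exact vo_ne_vn h e
    · intro e; exact hza (vo_inj h e)
    · intro e; exact hzb (vo_inj h e)
    · rintro _ (⟨v, hv, rfl⟩ | ⟨f, v, hv, t, ht1, ht2, ht3, rfl⟩) y hy
      · rcases vcases h y with ⟨w, rfl⟩ | ⟨f, rfl⟩
        · rcases hA v hv w (adj_oo h hy) with h1 | h1 | h1
          · exact Or.inl (Or.inl ⟨w, h1, rfl⟩)
          · exact Or.inr (Or.inl (by rw [h1]))
          · exact Or.inr (Or.inr (by rw [h1]))
        · obtain ⟨t, h1, h2, h3⟩ := adj_on h hy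
          exact Or.inl (Or.inr ⟨f, v, hv, t, h1, h2, h3, rfl⟩)
      · rcases vcases h y with ⟨w, rfl⟩ | ⟨g, rfl⟩
        · obtain ⟨s, h1, h2, h3⟩ := adj_on h hy.symm
          by_cases hvw : v = w
          · subst hvw
            exact Or.inl (Or.inl ⟨v, hv, rfl⟩)
          · have hvw' : M.graph.Adj v w :=
              G.maximal.face t s v w ht3 h3 (ht2.trans h2.symm) hvw
            rcases hA v hv w hvw' with h1 | h1 | h1
            · exact Or.inl (Or.inl ⟨w, h1, rfl⟩)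
            · exact Or.inr (Or.inl (by rw [h1]))
            · exact Or.inr (Or.inr (by rw [h1]))
        · exact absurd hy (fun hh => adj_nn h hh)
  · rintro M G S hS h ⟨f, hf, p, q, hpq⟩
    obtain ⟨a, b, h1, h2, h3, h4, h5⟩ := hS.two f hf
    obtain ⟨u, hu⟩ := (not_cr_iff a).1 h1
    obtain ⟨v, hv⟩ := (not_cr_iff b).1 h2
    have huv : ∀ t, ¬ M.cr t → M.fac t = f → M.org t = Sum.inl u ∨ M.org t = Sum.inl v := by
      intro t ht hft
      rw [← hu, ← hv]
      rcases hpq t ht hft with h6 | h6 <;> rcases hpq a h1 h3 with h7 | h7 <;>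
        rcases hpq b h2 h4 with h8 | h8
      · exact Or.inl (h6.trans h7.symm)
      · exact Or.inl (h6.trans h7.symm)
      · exact Or.inr (h6.trans h8.symm)
      · exact absurd (h7.trans h8.symm) h5
      · exact absurd (h7.trans h8.symm) h5
      · exact Or.inr (h6.trans h8.symm)
      · exact Or.inl (h6.trans h7.symm)
      · exact Or.inl (h6.trans h7.symm)
    have hcard : 2 < Nat.card M.V := G.conn2.1
    obtain ⟨z, hzu, hzv⟩ : ∃ t, t ≠ u ∧ t ≠ v := by
      by_contra hcon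
      push Not at hcon
      have hsub : (Finset.univ : Finset M.V) ⊆ {u, v} := by
        intro t _
        by_cases h : t = u
        · simp [h]
        · simp [hcon t h]
      have h1 := Finset.card_le_card hsub
      have h2 : ({u, v} : Finset M.V).card ≤ 2 := Finset.card_le_two
      rw [Finset.card_univ, ← Nat.card_eq_fintype_card] at h1
      omega
    refine ⟨vo h u, vo h v, {vn h ⟨f, hf⟩}, ?_, ?_, ⟨_, rfl⟩, ⟨vo h z, ?_, ?_, ?_⟩, ?_⟩
    · intro e; exact vo_ne_vn h e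
    · intro e; exact vo_ne_vn h e
    · intro e; exact vo_ne_vn h e
    · intro e; exact hzu (vo_inj h e)
    · intro e; exact hzv (vo_inj h e)
    · rintro _ rfl y hy
      rcases vcases h y with ⟨w, rfl⟩ | ⟨g, rfl⟩
      · obtain ⟨s, h1, h2, h3⟩ := adj_on h hy.symm
        rcases huv s h1 h2 with h4 | h4
        · right; left
          rw [Sum.inl.inj (h3.symm.trans h4)]
        · right; right
          rw [Sum.inl.inj (h3.symm.trans h4)]
      · exact absurd hy (fun hh => adj_nn h hh)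

end Pool.Agent.H74.OneP
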