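import Pool.Agent.H74.OneP.UStmts

/-! Module U7: the first set of faces. -/

namespace Pool.Agent.H74.OneP

open Equiv Equiv.Perm Drawing

namespace Drawing

variable {M : Drawing}

/-- darts leaving vertices on a two-sided face -/
theorem two_face {k : M.D} (hk : ¬ M.cr k) (h : gs (M.rev k)) :
    M.cr (M.rev (M.nxt k)) ∧ M.nxt (M.nxt (M.nxt k)) = k ∧
    ∀ t, ¬ M.cr t → M.fac t = M.fac k → t = k ∨ t = M.nxt k := by
  unfold gs at h
  rw [rev_rev'] at h
  rcases h with h | ⟨-, h1, h2⟩
  · exact absurd h hk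
  refine ⟨h1, h2, ?_⟩
  intro t ht hft
  obtain ⟨n, hn⟩ := ((M.fac_iff k t).1 hft.symm).exists_nat_pow_eq
  have hn' : (M.nxt ^ n) k = t := hn
  have key : ∀ n : ℕ, (M.nxt ^ n) k = k ∨ (M.nxt ^ n) k = M.nxt k ∨
      (M.nxt ^ n) k = M.nxt (M.nxt k) := by
    intro n
    induction n with
    | zero => exact Or.inl rfl
    | succ n ih =>
      rw [pow_succ', Perm.mul_apply]
      rcases ih with ih | ih | ih <;> rw [ih]
      · exact Or.inr (Or.inl rfl)
      · exact Or.inr (Or.inr rfl)
      · exact Or.inl h2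
  rcases key n with h | h | h
  · left; rw [← hn', h]
  · right; rw [← hn', h]
  · exfalso
    apply ht
    rw [← hn', h, cr_congr (org_nxt _)]
    exact h1

/-- on the face of a lens side the only uncrossed side is the lens side -/
theorem lens_unique {a k : M.D} (ha : M.LensD a) (hk : ¬ M.cr k) (hk' : ¬ M.cr (M.rev k))
    (h : M.fac k = M.fac a) : k = a := by
  obtain ⟨h1, h2, h3⟩ := two_face ha.1 ha.2.2.2
  rcases h3 k hk h with h | h
  · exact h
  · rw [h] at hk'; exact absurd h1 hk'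

theorem plain_not_two {f : M.F} (hf : M.PlainSlot f) {p q : M.V ⊕ M.X}
    (h : ∀ t, ¬ M.cr t → M.fac t = f → M.org t = p ∨ M.org t = q) : False := by
  obtain ⟨⟨a, b, c, h1, h2, h3, h4, h5, h6, h7, h8, h9⟩, -⟩ := hf
  rcases h a h1 h4 with ha | ha <;> rcases h b h2 h5 with hb | hb <;>
    rcases h c h3 h6 with hc | hc <;> simp_all

end Drawing

theorem u7 (hv : VisitStmt) : S1Stmt := by
  classical
  intro M G A B hA hB
  have hsides : ∀ k : M.D, ¬ M.cr k → gs (M.rev k) → ∀ t, ¬ M.cr t → M.fac t = M.fac k →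
      M.org t = M.org k ∨ M.org t = M.org (M.rev k) := by
    intro k hk hg t ht hft
    rcases (two_face hk hg).2.2 t ht hft with h | h
    · left; rw [h]
    · right; rw [h, org_nxt]
  refine ⟨⟨?_, ?_, ?_⟩, ?_⟩
  · rintro f (⟨a, ha, rfl⟩ | hf)
    · have hl := (hA a ha).1
      refine ⟨a, M.nxt a, hl.1, ?_, rfl, fac_nxt a, ?_⟩
      · rw [cr_congr (org_nxt a)]; exact hl.2.1
      · rw [org_nxt, ← far_of_not hl.2.1]; exact (G.no_loop hl.1).symm
    · obtain ⟨⟨a, b, c, h1, h2, h3, h4, h5, h6, h7, h8, h9⟩, -⟩ := hB f hf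
      exact ⟨a, b, h1, h2, h4, h5, h7⟩
  · intro a b _ ha hb hf ho
    exact (hv M G).1 a b ha hb hf ho
  · rintro k (⟨a, ha, hka⟩ | hkB) hk hk'
    · have hl := (hA a ha).1
      have hkeq : k = a := lens_unique hl hk hk' hka
      subst hkeq
      have hg' : gs (M.rev (M.rev k)) := by rw [rev_rev']; exact hl.2.2.1
      refine ⟨?_, ?_⟩
      · rintro (⟨a', ha', hfa'⟩ | hfB)
        · have := lens_unique (hA a' ha').1 hk' (by rw [rev_rev']; exact hk) hfa'
          rw [← this] at ha'
          exact (hA k ha).2 ha'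
        · exact plain_not_two (hB _ hfB) (hsides (M.rev k) hk' hg')
      · intro t ht hft
        rcases hsides (M.rev k) hk' hg' t ht hft with h | h
        · refine ⟨M.nxt k, ?_, fac_nxt k, ?_⟩
          · rw [cr_congr (org_nxt k)]; exact hk'
          · rw [org_nxt, h]
        · refine ⟨k, hk, rfl, ?_⟩
          rw [h, rev_rev']
    · have hg : gs k := (hB _ hkB).2 k rfl hk hk'
      have hg' : gs (M.rev (M.rev k)) := by rw [rev_rev']; exact hg
      refine ⟨?_, ?_⟩
      · rintro (⟨a', ha', hfa'⟩ | hfB)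
        · have h1 := lens_unique (hA a' ha').1 hk' (by rw [rev_rev']; exact hk) hfa'
          have h2 : gs (M.rev k) := by rw [h1]; exact (hA a' ha').1.2.2.1
          exact plain_not_two (hB _ hkB) (hsides k hk h2)
        · exact plain_not_two (hB _ hfB) (hsides (M.rev k) hk' hg')
      · intro t ht hft
        rcases hsides (M.rev k) hk' hg' t ht hft with h | h
        · refine ⟨M.nxt k, ?_, fac_nxt k, ?_⟩
          · rw [cr_congr (org_nxt k)]; exact hk'
          · rw [org_nxt, h]
        · refine ⟨k, hk, rfl, ?_⟩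
          rw [h, rev_rev']
  · have hset : {f | (∃ a ∈ A, f = M.fac a) ∨ f ∈ B} = (M.fac '' A) ∪ B := by
      ext f
      simp only [Set.mem_union, Set.mem_image]
      constructor
      · rintro (⟨a, ha, rfl⟩ | h)
        · exact Or.inl ⟨a, ha, rfl⟩
        · exact Or.inr h
      · rintro (⟨a, ha, rfl⟩ | h)
        · exact Or.inl ⟨a, ha, rfl⟩
        · exact Or.inr h
    have hdisj : Disjoint (M.fac '' A) B := by
      rw [Set.disjoint_left]
      rintro f ⟨a, ha, rfl⟩ hfB
      exact plain_not_two (hB _ hfB) (hsides a (hA a ha).1.1 (hA a ha).1.2.2.2)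
    have hinj : Set.InjOn M.fac A := by
      intro a ha a' ha' h
      exact lens_unique (hA a' ha').1 (hA a ha).1.1 (hA a ha).1.2.1 h
    rw [hset]
    show Nat.card ↥(M.fac '' A ∪ B) = Nat.card ↥A + Nat.card ↥B
    rw [Nat.card_coe_set_eq, Nat.card_coe_set_eq, Nat.card_coe_set_eq, Set.ncard_union_eq hdisj (Set.toFinite _)
      (Set.toFinite _), Set.InjOn.ncard_image hinj]

end Pool.Agent.H74.OneP
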