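import Pool.Agent.H41.OneP.Cone

/-! Module U8: the second set of faces. -/

namespace Pool.Agent.H74.OneP

open Equiv Equiv.Perm Drawing ConeF

theorem u8 : S2Stmt := by
  intro M G S hS h A hA
  -- facts on a corner `t` with `t.1 ∈ A`
  have key : ∀ t : M.TS S, t.1 ∈ A →
      M.nxt t.1 = (nextT S t).1 ∧ nextT S (nextT S t) = t ∧ (nextT S t).1 ∉ A ∧
      M.org t.1 ≠ M.org (nextT S t).1 := by
    intro t ht
    obtain ⟨-, hl⟩ := hA t.1 ht
    obtain ⟨h1, h2, h3⟩ := two_face hl.1 hl.2.2.2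
    have h4 : ¬ M.cr (M.nxt t.1) := by rw [cr_congr (org_nxt _)]; exact hl.2.1
    have h5 : nreal t.1 = M.nxt t.1 := by unfold nreal; rw [if_neg h4]
    have h6 : M.nxt t.1 = (nextT S t).1 := h5.symm
    have h7 : M.cr (M.nxt (M.nxt t.1)) := by rw [cr_congr (org_nxt _)]; exact h1
    refine ⟨h6, ?_, ?_, ?_⟩
    · apply Subtype.ext
      show nreal (nreal t.1) = t.1
      rw [h5]; unfold nreal; rw [if_pos h7, h2]
    · intro hh
      rw [← h6] at hh
      exact (hA _ hh).2.2.1 h1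
    · rw [← h6, org_nxt, ← far_of_not hl.2.1]; exact (G.no_loop hl.1).symm
  have mem : ∀ t : M.TS S, fn h t ∈ S2 M S h A ↔ t.1 ∈ A := by
    intro t
    constructor
    · rintro ⟨a, ha, t', h1, h2⟩
      have : t = t' := fn_inj h h1
      rw [this, h2]; exact ha
    · intro ht
      exact ⟨t.1, ht, t, rfl, rfl⟩
  have mem' : ∀ f, f ∈ S2 M S h A → ∃ t : M.TS S, f = fn h t ∧ t.1 ∈ A := by
    rintro f ⟨a, ha, t, h1, h2⟩
    exact ⟨t, h1, h2 ▸ ha⟩
  have nmem : ∀ f, fo h f ∉ S2 M S h A := by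
    intro f hf
    obtain ⟨t, h1, -⟩ := mem' _ hf
    exact fo_ne_fn h h1
  refine ⟨⟨?_, ?_, ?_⟩, ?_⟩
  · intro f hf
    obtain ⟨t, rfl, ht⟩ := mem' f hf
    refine ⟨dl h t.1, dh h t, ?_, ncr_dh h t, ?_, rfl, ?_⟩
    · rw [cr_dl]; exact t.2.2
    · exact fac_dl_in h t.2.1 t.2.2
    · rw [org_dl, org_dh]; exact pt_ne_nv h
  · intro x y hx hxr hyr hf ho
    obtain ⟨t, hft, ht⟩ := mem' _ hx
    obtain ⟨k1, k2, k3, k4⟩ := key t ht
    rcases real_fn h hxr hft with h1 | h1 | h1 <;>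
      rcases real_fn h hyr (hf.symm.trans hft) with h2 | h2 | h2 <;> rw [h1, h2] at ho ⊢
    · rw [org_dl, org_du] at ho
      exact absurd ((pt_inj h).1 ho) k4
    · rw [org_dl, org_dh] at ho
      exact absurd ho (pt_ne_nv h)
    · rw [org_dl, org_du] at ho
      exact absurd ((pt_inj h).1 ho).symm k4
    · rw [org_du, org_dh] at ho
      exact absurd ho (pt_ne_nv h)
    · rw [org_dl, org_dh] at ho
      exact absurd ho.symm (pt_ne_nv h)
    · rw [org_du, org_dh] at ho
      exact absurd ho.symm (pt_ne_nv h)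
  · intro k hk hkr hkr'
    obtain ⟨t, hft, ht⟩ := mem' _ hk
    obtain ⟨k1, k2, k3, k4⟩ := key t ht
    obtain ⟨-, hl⟩ := hA t.1 ht
    have k2' : (nextT S).symm t = nextT S t := by
      rw [Equiv.symm_apply_eq, k2]
    -- the triangle behind the new sides
    have tri : (N h).fac ((N h).rev k) = fn h (nextT S t) →
        (N h).fac ((N h).rev k) ∉ S2 M S h A ∧ ∀ s, ¬ (N h).cr s →
          (N h).fac s = (N h).fac ((N h).rev k) → ∃ s', ¬ (N h).cr s' ∧
            (N h).fac s' = (N h).fac k ∧ (N h).org s' = (N h).org s := by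
      intro hh
      rw [hh]
      refine ⟨?_, ?_⟩
      · rw [mem]; exact k3
      · intro s hs hfs
        rw [hft]
        rcases real_fn h hs hfs with h1 | h1 | h1 <;> rw [h1]
        · refine ⟨du h (nextT S t), ncr_du h _, ?_, rfl⟩
          rw [fac_du]; simp
        · refine ⟨dl h t.1, ?_, ?_, ?_⟩
          · rw [cr_dl]; exact t.2.2
          · exact fac_dl_in h t.2.1 t.2.2
          · rw [k2]; rfl
        · refine ⟨dh h t, ncr_dh h t, rfl, ?_⟩
          rw [org_dh, org_dh]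
          congr 1
          apply Subtype.ext
          show M.fac t.1 = M.fac (nextT S t).1
          rw [← k1, fac_nxt]
    rcases real_fn h hkr hft with h1 | h1 | h1
    · have hS' := hS.across t.1 t.2.1 t.2.2 hl.2.1
      have hfr : (N h).fac ((N h).rev k) = fo h ⟨M.fac (M.rev t.1), hS'.1⟩ := by
        rw [h1, rev_dl, fac_dl_out h hS'.1]
      rw [hfr]
      refine ⟨nmem _, ?_⟩
      intro s hs hfs
      obtain ⟨a, rfl, ha⟩ := real_fo h hfs
      rw [cr_dl] at hs
      have hg : gs (M.rev (M.rev t.1)) := by rw [rev_rev']; exact hl.2.2.1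
      rw [hft]
      rcases (two_face hl.2.1 hg).2.2 a hs ha with h3 | h3
      · refine ⟨du h (nextT S t), ncr_du h _, ?_, ?_⟩
        · rw [fac_du]; simp
        · rw [org_du, org_dl, ← k1, h3, org_nxt]
      · refine ⟨dl h t.1, ?_, ?_, ?_⟩
        · rw [cr_dl]; exact t.2.2
        · exact fac_dl_in h t.2.1 t.2.2
        · rw [org_dl, org_dl, h3, org_nxt, rev_rev']
    · apply tri
      rw [h1, rev_du, fac_dh]
    · apply tri
      rw [h1, rev_dh, fac_du, k2']
  · symm
    refine Nat.card_congr (Equiv.ofBijective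
      (fun a : A => (⟨fn h ⟨a.1, (hA a.1 a.2).1, (hA a.1 a.2).2.1⟩, (mem _).2 a.2⟩ : S2 M S h A))
      ⟨?_, ?_⟩)
    · intro a b hab
      have h1 := congrArg Subtype.val hab
      have h2 := fn_inj h h1
      apply Subtype.ext
      exact Subtype.mk.inj h2
    · rintro ⟨f, hf⟩
      obtain ⟨t, rfl, ht⟩ := mem' f hf
      exact ⟨⟨t.1, ht⟩, rfl⟩

end Pool.Agent.H74.OneP
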